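import Pool.Agent.Y734.M.StmsN

/-!
# Job INV: the involution for five points (helper475)

The involution with the fixed points `P 4` and `R = d_40 P 3 + d_43 P 0` is
`y ↦ d(R, y) P 4 + d(P 4, y) R`.
-/

set_option autoImplicit false

namespace Pool.Agent.Y734.M.INV

open Pool.Agent.Y734.M

variable {L : Type} [Field L]

/-- the matrix of `y ↦ dt R y • A + dt A y • R` -/
def gm (A R : Fin 2 → L) : Matrix (Fin 2) (Fin 2) L :=
  !![-(A 0 * R 1) - R 0 * A 1, A 0 * R 0 + R 0 * A 0; -(A 1 * R 1) - R 1 * A 1, A 1 * R 0 + R 1 * A 0]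

theorem gm_mul (A R y : Fin 2 → L) : (gm A R).mulVec y = dt R y • A + dt A y • R := by
  funext i
  fin_cases i
  · simp [gm, Matrix.mulVec, dotProduct, Fin.sum_univ_two, dt]
    ring
  · simp [gm, Matrix.mulVec, dotProduct, Fin.sum_univ_two, dt]
    ring

theorem gm_trace (A R : Fin 2 → L) : (gm A R).trace = 0 := by
  rw [Matrix.trace_fin_two]
  simp [gm]
  ring

theorem gm_det (A R : Fin 2 → L) : (gm A R).det = -(dt A R) ^ 2 := by
  rw [Matrix.det_fin_two]
  simp [gm, dt]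
  ring

/-- a vector proportional to another one -/
theorem prop_of {P Q v : Fin 2 → L} (h : dt P Q ≠ 0) (hv : dt Q v = 0) :
    v = (dt P v / dt P Q) • Q := by
  have h0 : dt P Q • v = dt P v • Q := by
    funext i
    fin_cases i
    · simp only [Pi.smul_apply, smul_eq_mul]
      unfold dt at *
      simp only [Fin.zero_eta, Fin.isValue]
      linear_combination (-P 0) * hv
    · simp only [Pi.smul_apply, smul_eq_mul]
      unfold dt at *
      simp only [Fin.mk_one, Fin.isValue]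
      linear_combination (-P 1) * hv
  rw [div_eq_inv_mul, ← smul_smul, ← h0, smul_smul, inv_mul_cancel₀ h, one_smul]

theorem inv : InvStmt := by
  intro L _ _ P hN hV
  have h40 : dt (P 4) (P 0) ≠ 0 := hN 4 0 (by decide)
  have h43 : dt (P 4) (P 3) ≠ 0 := hN 4 3 (by decide)
  have h12 : dt (P 1) (P 2) ≠ 0 := hN 1 2 (by decide)
  have h21 : dt (P 2) (P 1) ≠ 0 := hN 2 1 (by decide)
  have h31 : dt (P 3) (P 1) ≠ 0 := hN 3 1 (by decide)
  have h24 : dt (P 2) (P 4) ≠ 0 := hN 2 4 (by decide)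
  have h34 : dt (P 3) (P 4) ≠ 0 := hN 3 4 (by decide)
  have h04 : dt (P 0) (P 4) ≠ 0 := hN 0 4 (by decide)
  have h14 : dt (P 1) (P 4) ≠ 0 := hN 1 4 (by decide)
  have h01 : dt (P 0) (P 1) ≠ 0 := hN 0 1 (by decide)
  unfold VV at hV
  obtain ⟨R, hR⟩ : ∃ R : Fin 2 → L, R = dt (P 4) (P 0) • P 3 + dt (P 4) (P 3) • P 0 := ⟨_, rfl⟩
  have hdR : ∀ y : Fin 2 → L, dt R y = dt (P 4) (P 0) * dt (P 3) y + dt (P 4) (P 3) * dt (P 0) y := by
    intro y
    rw [hR]
    unfold dt
    simp only [Pi.add_apply, Pi.smul_apply, smul_eq_mul]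
    ring
  have hanti : ∀ x y : Fin 2 → L, dt x y = - dt y x := by
    intro x y
    unfold dt
    ring
  have hself : ∀ x : Fin 2 → L, dt x x = 0 := by
    intro x
    unfold dt
    ring
  have key12 : dt R (P 1) * dt (P 2) (P 4) + dt (P 4) (P 1) * dt (P 2) R = 0 := by
    rw [hanti (P 2) R, hdR, hdR]
    unfold dt at *
    linear_combination (-2) * hV
  refine ⟨gm (P 4) R, gm_trace _ _, ?_, ?_, ?_, ?_, ?_, ?_, ?_⟩
  · rw [gm_det, neg_ne_zero]
    apply pow_ne_zero
    rw [hanti, neg_ne_zero, hdR, hanti (P 0) (P 4), hanti (P 4) (P 3)]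
    have h1 : dt (P 4) (P 0) * dt (P 3) (P 4) + -dt (P 3) (P 4) * -dt (P 4) (P 0) =
      2 * (dt (P 4) (P 0) * dt (P 3) (P 4)) := by ring
    rw [h1]
    exact mul_ne_zero two_ne_zero (mul_ne_zero h40 h34)
  · refine ⟨2 * dt (P 4) (P 0) ^ 2, ?_⟩
    rw [gm_mul, hdR, hself, hR]
    funext i
    fin_cases i <;>
    · simp only [Pi.add_apply, Pi.smul_apply, smul_eq_mul]
      unfold dt
      simp only [Fin.zero_eta, Fin.mk_one, Fin.isValue]
      ring
  · refine ⟨2 * dt (P 4) (P 3) ^ 2, ?_⟩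
    rw [gm_mul, hdR, hself, hR]
    funext i
    fin_cases i <;>
    · simp only [Pi.add_apply, Pi.smul_apply, smul_eq_mul]
      unfold dt
      simp only [Fin.zero_eta, Fin.mk_one, Fin.isValue]
      ring
  · refine ⟨_, prop_of h12 ?_⟩
    rw [gm_mul]
    have h1 : dt (P 2) (dt R (P 1) • P 4 + dt (P 4) (P 1) • R) =
        dt R (P 1) * dt (P 2) (P 4) + dt (P 4) (P 1) * dt (P 2) R := by
      unfold dt
      simp only [Pi.add_apply, Pi.smul_apply, smul_eq_mul]
      ring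
    rw [h1, key12]
  · refine ⟨_, prop_of h21 ?_⟩
    rw [gm_mul]
    have h1 : dt (P 1) (dt R (P 2) • P 4 + dt (P 4) (P 2) • R) =
        dt R (P 1) * dt (P 2) (P 4) + dt (P 4) (P 1) * dt (P 2) R := by
      unfold dt
      simp only [Pi.add_apply, Pi.smul_apply, smul_eq_mul]
      ring
    rw [h1, key12]
  · refine ⟨dt R (P 4), ?_⟩
    rw [gm_mul, hself, zero_smul, add_zero]
  · intro Q hQ hrel
    have hQ4 := hQ 4
    -- `Q` is proportional to `R`
    have hb : dt (P 0) (P 1) * (dt (P 2) Q * dt (P 3) Q * dt (P 0) (P 4) * dt (P 1) (P 4) -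
        dt (P 2) (P 4) * dt (P 3) (P 4) * dt (P 0) Q * dt (P 1) Q) = 0 := by
      linear_combination (dt (P 0) (P 4) * dt (P 1) (P 4)) * hrel -
        (dt (P 0) Q * dt (P 1) Q) * hV
    have hb' := (mul_eq_zero.1 hb).resolve_left h01
    have pl : dt (P 3) (P 4) * dt (P 2) Q = dt (P 2) (P 4) * dt (P 3) Q -
        dt (P 2) (P 3) * dt (P 4) Q := by
      unfold dt
      ring
    have hc : dt (P 2) (P 4) * (dt (P 3) Q ^ 2 * dt (P 0) (P 4) * dt (P 1) (P 4) -
        dt (P 0) (P 1) * dt (P 3) (P 4) * dt (P 4) Q * dt (P 3) Q -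
        dt (P 3) (P 4) ^ 2 * dt (P 0) Q * dt (P 1) Q) = 0 := by
      linear_combination dt (P 3) (P 4) * hb' -
        (dt (P 3) Q * dt (P 0) (P 4) * dt (P 1) (P 4)) * pl -
        (dt (P 4) Q * dt (P 3) Q) * hV
    have hc' := (mul_eq_zero.1 hc).resolve_left h24
    have hd : dt (P 4) Q * (dt (P 3) (P 1) * dt R Q) = 0 := by
      rw [hdR]
      have e : dt (P 4) Q * (dt (P 3) (P 1) * (dt (P 4) (P 0) * dt (P 3) Q +
          dt (P 4) (P 3) * dt (P 0) Q)) = dt (P 3) Q ^ 2 * dt (P 0) (P 4) * dt (P 1) (P 4) -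
        dt (P 0) (P 1) * dt (P 3) (P 4) * dt (P 4) Q * dt (P 3) Q -
        dt (P 3) (P 4) ^ 2 * dt (P 0) Q * dt (P 1) Q := by
        unfold dt
        ring
      rw [e, hc']
    have hRQ : dt R Q = 0 := by
      rcases mul_eq_zero.1 hd with h | h
      · exact absurd h hQ4
      · exact (mul_eq_zero.1 h).resolve_left h31
    refine ⟨_, prop_of hQ4 ?_⟩
    rw [gm_mul]
    have h1 : dt Q (dt R Q • P 4 + dt (P 4) Q • R) =
        dt R Q * dt Q (P 4) - dt (P 4) Q * dt R Q := by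
      unfold dt
      simp only [Pi.add_apply, Pi.smul_apply, smul_eq_mul]
      ring
    rw [h1, hRQ]
    ring

end Pool.Agent.Y734.M.INV
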